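import Mathlib

namespace Pool.Agent.Results.MP_836f85_an.NegativeWeight

open MeasureTheory Set

/-- The B-splines of the knots `ξ 0 ≤ ξ 1 ≤ ...` (Cox-de Boor recursion; `0/0 = 0`), `bspline ξ R p i`
being the one of degree `p` supported on `[ξ i, ξ (i+p+1)]`; `R` is the right end of the interval
on which the splines are considered, at which they are continuous from the left. -/
noncomputable def bspline (ξ : ℕ → ℝ) (R : ℝ) : ℕ → ℕ → ℝ → ℝ
  | 0, i, x => if (ξ i ≤ x ∧ x < ξ (i + 1)) ∨ (x = R ∧ ξ i < ξ (i + 1) ∧ ξ (i + 1) = R) then 1 else 0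
  | p + 1, i, x => (x - ξ i) / (ξ (i + p + 1) - ξ i) * bspline ξ R p i x +
      (ξ (i + p + 2) - x) / (ξ (i + p + 2) - ξ (i + 1)) * bspline ξ R p (i + 1) x

/-- The spline with coefficients `a` (degree `p`, `n` B-splines, on `[ξ p, ξ n]`). -/
noncomputable def spline (p n : ℕ) (ξ : ℕ → ℝ) (a : Fin n → ℝ) (x : ℝ) : ℝ :=
  ∑ i, a i * bspline ξ (ξ n) p i x

/-- `I(f) = ∫_Ω ρ f`, where `Ω = [ξ p, ξ n]`. -/
noncomputable def I (p n : ℕ) (ξ : ℕ → ℝ) (ρ f : ℝ → ℝ) : ℝ := ∫ x in ξ p..ξ n, ρ x * f x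

/-- The sup norm on `Ω = [ξ p, ξ n]`. -/
noncomputable def supNorm (p n : ℕ) (ξ : ℕ → ℝ) (f : ℝ → ℝ) : ℝ :=
  sSup ((fun x => |f x|) '' Icc (ξ p) (ξ n))

/-- The knots `-1,-1,-1,1,1,1,...`. -/
noncomputable def K (i : ℕ) : ℝ := if i ≤ 2 then -1 else 1

lemma b0 (i : ℕ) (hi : i ≠ 2) (x : ℝ) : bspline K (K 3) 0 i x = 0 := by
  rw [bspline, if_neg]
  unfold K
  rintro (h | h)
  · by_cases h2 : i ≤ 2
    · have h3 : i + 1 ≤ 2 := by omega
      rw [if_pos h2, if_pos h3] at h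
      linarith
    · have h3 : ¬ i + 1 ≤ 2 := by omega
      rw [if_neg h2, if_neg h3] at h
      linarith
  · by_cases h2 : i ≤ 2
    · have h3 : i + 1 ≤ 2 := by omega
      rw [if_pos h2, if_pos h3] at h
      linarith [h.2.1]
    · have h3 : ¬ i + 1 ≤ 2 := by omega
      rw [if_neg h2, if_neg h3] at h
      linarith [h.2.1]

lemma b02 {x : ℝ} (hx : x ∈ Icc (-1 : ℝ) 1) : bspline K (K 3) 0 2 x = 1 := by
  rw [bspline, if_pos]
  unfold K
  norm_num
  rcases lt_or_eq_of_le hx.2 with h | h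
  · exact Or.inl ⟨hx.1, h⟩
  · exact Or.inr h

lemma bs0 {x : ℝ} (hx : x ∈ Icc (-1 : ℝ) 1) : bspline K (K 3) 2 0 x = ((1 - x) / 2) ^ 2 := by
  simp only [bspline.eq_2, Nat.reduceAdd]
  rw [b02 hx, b0 0 (by norm_num), b0 1 (by norm_num)]
  unfold K
  norm_num
  ring

lemma bs1 {x : ℝ} (hx : x ∈ Icc (-1 : ℝ) 1) :
    bspline K (K 3) 2 1 x = 2 * ((1 + x) / 2) * ((1 - x) / 2) := by
  simp only [bspline.eq_2, Nat.reduceAdd]
  rw [b02 hx, b0 1 (by norm_num), b0 3 (by norm_num)]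
  unfold K
  norm_num
  ring

lemma bs2 {x : ℝ} (hx : x ∈ Icc (-1 : ℝ) 1) : bspline K (K 3) 2 2 x = ((1 + x) / 2) ^ 2 := by
  simp only [bspline.eq_2, Nat.reduceAdd]
  rw [b02 hx, b0 3 (by norm_num), b0 4 (by norm_num)]
  unfold K
  norm_num
  ring

lemma K2 : K 2 = -1 := by unfold K; norm_num

lemma K3 : K 3 = 1 := by unfold K; norm_num

lemma spline_eq (b : Fin 3 → ℝ) {x : ℝ} (hx : x ∈ Icc (-1 : ℝ) 1) :
    spline 2 3 K b x = b 0 * ((1 - x) / 2) ^ 2 + b 1 * (2 * ((1 + x) / 2) * ((1 - x) / 2)) +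
      b 2 * ((1 + x) / 2) ^ 2 := by
  unfold spline
  rw [Fin.sum_univ_three]
  change b 0 * bspline K (K 3) 2 0 x + b 1 * bspline K (K 3) 2 1 x +
    b 2 * bspline K (K 3) 2 2 x = _
  rw [bs0 hx, bs1 hx, bs2 hx]

/-- The density. -/
noncomputable def rho (t : ℝ) : ℝ := 1 + 3 * t + 3 * t ^ 2

/-- The points `-1, 0, 1`. -/
noncomputable def pts (i : Fin 3) : ℝ := (i : ℝ) - 1

lemma integral_poly (a b c d e : ℝ) :
    ∫ x in (-1 : ℝ)..1, (a + b * x + c * x ^ 2 + d * x ^ 3 + e * x ^ 4) =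
      2 * a + 2 / 3 * c + 2 / 5 * e := by
  have h : ∀ x ∈ uIcc (-1 : ℝ) 1, HasDerivAt
      (fun x => a * x + b * x ^ 2 / 2 + c * x ^ 3 / 3 + d * x ^ 4 / 4 + e * x ^ 5 / 5)
      (a + b * x + c * x ^ 2 + d * x ^ 3 + e * x ^ 4) x := by
    intro x _
    have h1 := ((hasDerivAt_id x).const_mul a)
    have h2 := (((hasDerivAt_pow 2 x).const_mul b).div_const 2)
    have h3 := (((hasDerivAt_pow 3 x).const_mul c).div_const 3)
    have h4 := (((hasDerivAt_pow 4 x).const_mul d).div_const 4)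
    have h5 := (((hasDerivAt_pow 5 x).const_mul e).div_const 5)
    refine ((((h1.add h2).add h3).add h4).add h5).congr_deriv ?_
    push_cast
    ring
  rw [intervalIntegral.integral_eq_sub_of_hasDerivAt h]
  · ring
  · apply Continuous.intervalIntegrable
    fun_prop

lemma I_spline (b : Fin 3 → ℝ) :
    I 2 3 K rho (spline 2 3 K b) = 7 / 15 * b 0 + 16 / 15 * b 1 + 37 / 15 * b 2 := by
  unfold I
  rw [K2, K3]
  have h : ∫ x in (-1 : ℝ)..1, rho x * spline 2 3 K b x = ∫ x in (-1 : ℝ)..1,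
      ((b 0 / 4 + b 1 / 2 + b 2 / 4) + (b 0 / 4 + 3 * b 1 / 2 + 5 * b 2 / 4) * x +
        (-(b 0 / 2) + b 1 + 5 * b 2 / 2) * x ^ 2 +
        (-(3 * b 0 / 4) - 3 * b 1 / 2 + 9 * b 2 / 4) * x ^ 3 +
        (3 * b 0 / 4 - 3 * b 1 / 2 + 3 * b 2 / 4) * x ^ 4) := by
    apply intervalIntegral.integral_congr
    intro x hx
    rw [uIcc_of_le (by norm_num)] at hx
    simp only
    rw [spline_eq b hx]
    unfold rho
    ring
  rw [h, integral_poly]
  ring

lemma I_one : I 2 3 K rho (fun _ => 1) = 4 := by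
  unfold I
  rw [K2, K3]
  have h : ∫ x in (-1 : ℝ)..1, rho x * 1 = ∫ x in (-1 : ℝ)..1,
      (1 + 3 * x + 3 * x ^ 2 + 0 * x ^ 3 + 0 * x ^ 4) := by
    apply intervalIntegral.integral_congr
    intro x _
    simp only
    unfold rho
    ring
  rw [h, integral_poly]
  norm_num

/-- The interpolatory quadrature weights. -/
noncomputable def wts : Fin 3 → ℝ := ![-1 / 15, 32 / 15, 29 / 15]

/-- The coefficients of the equioscillating spline. -/
noncomputable def cof : Fin 3 → ℝ := ![1, -3, 1]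

lemma pts0 : pts 0 = -1 := by unfold pts; norm_num
lemma pts1 : pts 1 = 0 := by unfold pts; norm_num
lemma pts2 : pts 2 = 1 := by
  unfold pts
  norm_num

lemma sp0 (b : Fin 3 → ℝ) : spline 2 3 K b (pts 0) = b 0 := by
  rw [pts0, spline_eq b (by constructor <;> norm_num)]
  ring
lemma sp1 (b : Fin 3 → ℝ) : spline 2 3 K b (pts 1) = b 0 / 4 + b 1 / 2 + b 2 / 4 := by
  rw [pts1, spline_eq b (by constructor <;> norm_num)]
  ring
lemma sp2 (b : Fin 3 → ℝ) : spline 2 3 K b (pts 2) = b 2 := by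
  rw [pts2, spline_eq b (by constructor <;> norm_num)]
  ring

lemma sup_le : supNorm 2 3 K (spline 2 3 K cof) ≤ 1 := by
  unfold supNorm
  rw [K2, K3]
  apply csSup_le
  · exact ⟨_, 0, by constructor <;> norm_num, rfl⟩
  · rintro _ ⟨x, hx, rfl⟩
    simp only
    rw [spline_eq cof hx]
    have h : cof 0 * ((1 - x) / 2) ^ 2 + cof 1 * (2 * ((1 + x) / 2) * ((1 - x) / 2)) +
      cof 2 * ((1 + x) / 2) ^ 2 = 2 * x ^ 2 - 1 := by
      simp only [cof, Matrix.cons_val_zero, Matrix.cons_val_one, Matrix.cons_val]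
      ring
    rw [h, abs_le]
    constructor
    · nlinarith [sq_nonneg x]
    · nlinarith [hx.1, hx.2]

/-- **Q1 is false**: quadratic splines (knots `-1,-1,-1,1,1,1`, i.e. quadratic polynomials on
`[-1,1]`), the points `-1,0,1`, which are the Demko points (`‖c‖ = 1`), and the positive density
`1 + 3t + 3t²`. -/
theorem result : ∃ (p n : ℕ) (ξ : ℕ → ℝ) (ρ : ℝ → ℝ) (x w a : Fin n → ℝ),
    1 ≤ p ∧ 1 ≤ n ∧ Monotone ξ ∧ ξ p < ξ n ∧ (∀ i < n, ξ i < ξ (i + p + 1)) ∧
    Continuous ρ ∧ (∀ t, 0 < ρ t) ∧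
    StrictMono x ∧ (∀ i, x i ∈ Icc (ξ p) (ξ n)) ∧
    (∀ i : Fin n, 0 < bspline ξ (ξ n) p i (x i)) ∧
    (∀ w' : Fin n → ℝ,
      (∀ b, ∑ k, w' k * spline p n ξ b (x k) = I p n ξ ρ (spline p n ξ b)) ↔ w' = w) ∧
    (∀ a' : Fin n → ℝ, (∀ i : Fin n, spline p n ξ a' (x i) = (-1) ^ (i : ℕ)) ↔ a' = a) ∧
    supNorm p n ξ (spline p n ξ a) * I p n ξ ρ (fun _ => 1) < ∑ k, |w k| := by
  refine ⟨2, 3, K, rho, pts, wts, cof, by norm_num, by norm_num, ?_, ?_, ?_, ?_, ?_, ?_, ?_, ?_,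
    ?_, ?_, ?_⟩
  · intro i j hij
    unfold K
    split_ifs with h1 h2
    · exact le_refl _
    · norm_num
    · omega
    · exact le_refl _
  · rw [K2, K3]; norm_num
  · intro i hi
    unfold K
    rw [if_pos (by omega), if_neg (by omega)]
    norm_num
  · unfold rho; fun_prop
  · intro t
    unfold rho
    nlinarith [sq_nonneg (2 * t + 1)]
  · intro i j hij
    unfold pts
    have : ((i : ℕ) : ℝ) < ((j : ℕ) : ℝ) := by exact_mod_cast hij
    linarith
  · intro i
    rw [K2, K3]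
    unfold pts
    fin_cases i <;> simp <;> norm_num
  · intro i
    fin_cases i
    · change 0 < bspline K (K 3) 2 0 (pts 0)
      rw [pts0, bs0 (by constructor <;> norm_num)]
      norm_num
    · change 0 < bspline K (K 3) 2 1 (pts 1)
      rw [pts1, bs1 (by constructor <;> norm_num)]
      norm_num
    · change 0 < bspline K (K 3) 2 2 (pts 2)
      rw [pts2, bs2 (by constructor <;> norm_num)]
      norm_num
  · intro w'
    have hsum : ∀ b : Fin 3 → ℝ, ∑ k, w' k * spline 2 3 K b (pts k) =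
        w' 0 * b 0 + w' 1 * (b 0 / 4 + b 1 / 2 + b 2 / 4) + w' 2 * b 2 := by
      intro b
      rw [Fin.sum_univ_three, sp0, sp1, sp2]
    constructor
    · intro h
      have e0 := h ![1, 0, 0]
      have e1 := h ![0, 1, 0]
      have e2 := h ![0, 0, 1]
      rw [hsum, I_spline] at e0 e1 e2
      simp only [Matrix.cons_val_zero, Matrix.cons_val_one, Matrix.cons_val] at e0 e1 e2
      funext k
      fin_cases k
      · simp [wts]; linarith
      · simp [wts]; linarith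
      · simp [wts]; linarith
    · rintro rfl b
      rw [hsum, I_spline]
      simp only [wts, Matrix.cons_val_zero, Matrix.cons_val_one, Matrix.cons_val]
      ring
  · intro a'
    constructor
    · intro h
      have e0 := h 0
      have e1 := h 1
      have e2 := h 2
      rw [sp0] at e0
      rw [sp1] at e1
      rw [sp2] at e2
      norm_num at e0 e1 e2
      funext k
      fin_cases k
      · simp [cof]; linarith
      · simp [cof]; linarith
      · simp [cof]; linarith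
    · rintro rfl i
      fin_cases i
      · change spline 2 3 K cof (pts 0) = _
        rw [sp0]; simp [cof]
      · change spline 2 3 K cof (pts 1) = _
        rw [sp1]; simp [cof]; norm_num
      · change spline 2 3 K cof (pts 2) = _
        rw [sp2]; simp [cof]
  · rw [I_one]
    have h1 := sup_le
    have h2 : ∑ k, |wts k| = 62 / 15 := by
      rw [Fin.sum_univ_three]
      simp only [wts, Matrix.cons_val_zero, Matrix.cons_val_one, Matrix.cons_val]
      norm_num [abs_of_pos, abs_of_neg]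
    rw [h2]
    linarith

end Pool.Agent.Results.MP_836f85_an.NegativeWeight
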